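import Pool.Agent.BEX.Final

/-!
Honeycomb lattice: the mass of the critical bridges of `M` columns is of order `M^(-1/4)`.
-/

namespace Pool.Agent.Results.MP_8c6f77_pr.BridgeExponent

open Pool.Agent.BEX.Half

/-- For every `M ≥ 1` the total weight of the bridges of `M` columns from `0`, weight `μ_L^(-number of vertices)`, lies
between `c M^(-1/4)` and `C M^(-1/4)`. -/
theorem result : ∃ c C : ℝ, 0 < c ∧ 0 < C ∧ ∀ M : ℕ, 1 ≤ M →
    c * (M : ℝ) ^ (-(1 / 4) : ℝ) ≤ ∑' w : Bridge M, wt w ∧ ∑' w : Bridge M, wt w ≤ C * (M : ℝ) ^ (-(1 / 4) : ℝ) :=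
  Pool.Agent.BEX.bridge_main

end Pool.Agent.Results.MP_8c6f77_pr.BridgeExponent
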